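import Pool.Agent.Q80.Disc.Exist

set_option autoImplicit false

/-!
# The exact power of the discriminant in the denominator of every coefficient

For every exponent vector `γ` of degree `n (d - 2)` the coefficient `μ_γ` of the associated form is
not the zero function: for `f = ∑ ℓ_j ^ d`, `ℓ_j = z_j - (z_1 + ... + z_n) / (n + 1)`, the variables
are sums of the `ℓ_j` with positive coefficients, so that every monomial of degree `n (d - 2)` is
nonzero in the Milnor algebra. As `μ_γ (t f) = t ^ (-n) μ_γ (f)`, no power `Δ ^ p μ_γ` with `p ≤ 0` is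
a polynomial function. The upper bound is the key lemma of `Pool.Agent.Q80.Disc`.
-/

namespace Pool.Agent.Q122.Assoc

open MvPolynomial Pool.Agent.Helper56.Disc Pool.Agent.Q80.Disc

variable {n d : ℕ}

/-- `z ^ γ = μ · Hess(f)` in the Milnor algebra of `f`. -/
def IsMu (f : MvPolynomial (Fin n) ℂ) (γ : Fin n →₀ ℕ) (μ : ℂ) : Prop :=
  monomial γ (1 : ℂ) - C μ * hess f ∈ jacIdeal f

/-- `Δ ^ p * μ_γ`, a function on the nondegenerate forms, is given by a polynomial in the
coefficients (`p` is an integer). -/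
def Extends (Δ : MvPolynomial (Mon n d) ℂ) (γ : Fin n →₀ ℕ) (p : ℤ) : Prop :=
  ∃ P : MvPolynomial (Mon n d) ℂ, ∀ c : Mon n d → ℂ, Nondegenerate (form c) →
    ∀ μ : ℂ, IsMu (form c) γ μ → eval c P = eval c Δ ^ p * μ

/-! ### Positivity -/

/-- all coefficients of degree `k` are positive -/
def Good (k : ℕ) (P : MvPolynomial (Fin n) ℕ) : Prop := ∀ m : Fin n →₀ ℕ, m.degree = k → 1 ≤ coeff m P

theorem good_one : Good (n := n) 0 1 := by
  intro m hm
  have : m = 0 := (Finsupp.degree_eq_zero_iff m).1 hm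
  rw [this, coeff_zero_one]

theorem Good.mul_lin {k : ℕ} {P L : MvPolynomial (Fin n) ℕ} (hP : Good k P) (hL : Good 1 L) :
    Good (k + 1) (L * P) := by
  classical
  intro m hm
  have hm0 : m ≠ 0 := by
    rintro rfl
    simp at hm
  obtain ⟨j, hj⟩ := Finsupp.ne_iff.1 hm0
  have hj1 : 1 ≤ m j := Nat.one_le_iff_ne_zero.2 hj
  have hsum : Finsupp.single j 1 + (m - Finsupp.single j 1) = m := by
    apply add_tsub_cancel_of_le
    intro i
    by_cases hi : i = j
    · subst hi; simpa using hj1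
    · rw [Finsupp.single_eq_of_ne hi]
      exact Nat.zero_le _
  have hdeg : (m - Finsupp.single j 1).degree = k := by
    have := congrArg Finsupp.degree hsum
    rw [map_add, hm, Finsupp.degree_single] at this
    omega
  have h1 := hL (Finsupp.single j 1) (by rw [Finsupp.degree_single])
  have h2 := hP _ hdeg
  have hmem : (Finsupp.single j 1, m - Finsupp.single j 1) ∈ Finset.HasAntidiagonal.antidiagonal m := by
    rw [Finset.HasAntidiagonal.mem_antidiagonal]
    exact hsum
  rw [coeff_mul]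
  calc 1 ≤ coeff (Finsupp.single j 1) L * coeff (m - Finsupp.single j 1) P := by
        simpa using Nat.mul_le_mul h1 h2
    _ ≤ _ := by
        exact Finset.single_le_sum (f := fun x : (Fin n →₀ ℕ) × (Fin n →₀ ℕ) =>
          coeff x.1 L * coeff x.2 P) (fun _ _ => Nat.zero_le _) hmem

theorem Good.pow_mul {k : ℕ} {P L : MvPolynomial (Fin n) ℕ} (hP : Good k P) (hL : Good 1 L)
    (a : ℕ) : Good (k + a) (L ^ a * P) := by
  induction a with
  | zero => simpa using hP
  | succ a ih =>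
    have := ih.mul_lin hL
    rw [pow_succ', mul_assoc]
    exact this

theorem good_prod (L : Fin n → MvPolynomial (Fin n) ℕ) (hL : ∀ j, Good 1 (L j)) (γ : Fin n → ℕ)
    (s : Finset (Fin n)) : Good (∑ j ∈ s, γ j) (∏ j ∈ s, L j ^ γ j) := by
  classical
  induction s using Finset.induction_on with
  | empty => simpa using good_one
  | insert a s ha ih =>
    rw [Finset.sum_insert ha, Finset.prod_insert ha, add_comm]
    exact ih.pow_mul (hL a) (γ a)

theorem good_lin (j : Fin n) : Good 1 (X j + ∑ k, X k : MvPolynomial (Fin n) ℕ) := by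
  classical
  intro m hm
  obtain ⟨i, rfl⟩ : ∃ i, m = Finsupp.single i 1 := by
    have hm0 : m ≠ 0 := by
      rintro rfl
      simp at hm
    obtain ⟨i, hi⟩ := Finsupp.ne_iff.1 hm0
    refine ⟨i, ?_⟩
    have hi1 : 1 ≤ m i := Nat.one_le_iff_ne_zero.2 hi
    have hsum : Finsupp.single i 1 + (m - Finsupp.single i 1) = m := by
      apply add_tsub_cancel_of_le
      intro l
      by_cases hl : l = i
      · subst hl; simpa using hi1
      · rw [Finsupp.single_eq_of_ne hl]
        exact Nat.zero_le _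
    have := congrArg Finsupp.degree hsum
    rw [map_add, hm, Finsupp.degree_single] at this
    have h0 : (m - Finsupp.single i 1).degree = 0 := by omega
    have h0' : m - Finsupp.single i 1 = 0 := (Finsupp.degree_eq_zero_iff _).1 h0
    rw [h0', add_zero] at hsum
    exact hsum.symm
  rw [coeff_add, coeff_sum]
  have h1 : 1 ≤ ∑ k, coeff (Finsupp.single i 1) (X k : MvPolynomial (Fin n) ℕ) := by
    calc 1 ≤ coeff (Finsupp.single i 1) (X i : MvPolynomial (Fin n) ℕ) := by
          rw [coeff_X]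
          simp
      _ ≤ _ := Finset.single_le_sum (f := fun k => coeff (Finsupp.single i 1)
          (X k : MvPolynomial (Fin n) ℕ)) (fun _ _ => Nat.zero_le _) (Finset.mem_univ i)
  omega

/-! ### The form -/

/-- the linear forms -/
noncomputable def ell (j : Fin n) : MvPolynomial (Fin n) ℂ :=
  X j - C ((n + 1 : ℂ)⁻¹) * ∑ k, X k

/-- the form -/
noncomputable def f0 (n d : ℕ) : MvPolynomial (Fin n) ℂ := ∑ j, ell j ^ d

theorem n1 : (n + 1 : ℂ) ≠ 0 := by
  exact_mod_cast Nat.succ_ne_zero n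

theorem ell_hom (j : Fin n) : (ell j).IsHomogeneous 1 := by
  unfold ell
  refine (isHomogeneous_X _ _).sub ?_
  have h := (isHomogeneous_C (Fin n) ((n + 1 : ℂ)⁻¹)).mul
    (IsHomogeneous.sum (Finset.univ) (fun k => (X k : MvPolynomial (Fin n) ℂ)) 1
      (fun i _ => isHomogeneous_X _ i))
  rwa [zero_add] at h

theorem f0_hom : (f0 n d).IsHomogeneous d := by
  unfold f0
  refine IsHomogeneous.sum _ _ _ fun j _ => ?_
  have := (ell_hom j).pow d
  rwa [one_mul] at this

theorem pderiv_ell (j k : Fin n) :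
    pderiv k (ell j) = C ((if j = k then 1 else 0) - (n + 1 : ℂ)⁻¹) := by
  unfold ell
  rw [map_sub, pderiv_C_mul, map_sum]
  have h : ∑ i, pderiv k (X i : MvPolynomial (Fin n) ℂ) = 1 := by
    rw [Finset.sum_eq_single k]
    · rw [pderiv_X_self]
    · intro i _ hi
      rw [pderiv_X_of_ne hi]
    · simp
  rw [h, map_sub, mul_one]
  congr 1
  split_ifs with hjk
  · subst hjk; rw [pderiv_X_self, map_one]
  · rw [pderiv_X_of_ne hjk, map_zero]

theorem pderiv_f0 (k : Fin n) : pderiv k (f0 n d) =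
    ∑ j, (C ((d : ℂ) * ((if j = k then 1 else 0) - (n + 1 : ℂ)⁻¹)) : MvPolynomial (Fin n) ℂ) *
      ell j ^ (d - 1) := by
  unfold f0
  rw [map_sum]
  apply Finset.sum_congr rfl
  intro j _
  rw [Derivation.leibniz_pow, pderiv_ell]
  simp only [smul_eq_mul, nsmul_eq_mul, map_mul, map_natCast]
  ring

theorem eval_ell (z : Fin n → ℂ) (j : Fin n) :
    eval z (ell j) = z j - (n + 1 : ℂ)⁻¹ * ∑ k, z k := by
  unfold ell
  simp

theorem f0_nondeg (hd : 2 ≤ d) : Nondegenerate (f0 n d) := by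
  intro z hz
  have hd0 : (d : ℂ) ≠ 0 := by
    rw [Nat.cast_ne_zero]; omega
  set a : Fin n → ℂ := fun j => eval z (ell j) ^ (d - 1) with ha
  have h1 : ∀ k, a k = (n + 1 : ℂ)⁻¹ * ∑ j, a j := by
    intro k
    have h := hz k
    rw [pderiv_f0, map_sum] at h
    simp only [map_mul, map_pow, eval_C] at h
    have h2 : ∑ j, (d : ℂ) * ((if j = k then 1 else 0) - (n + 1 : ℂ)⁻¹) * a j =
        d * (a k - (n + 1 : ℂ)⁻¹ * ∑ j, a j) := by
      rw [mul_sub, Finset.mul_sum, Finset.mul_sum]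
      simp only [mul_sub, sub_mul, Finset.sum_sub_distrib]
      congr 1
      · rw [Finset.sum_eq_single k]
        · simp
        · intro j _ hj
          simp [hj]
        · simp
      · apply Finset.sum_congr rfl
        intro j _
        ring
    rw [h2] at h
    have h3 := (mul_eq_zero.1 h).resolve_left hd0
    exact sub_eq_zero.1 h3
  have h2 : ∑ j, a j = 0 := by
    have h3 : ∑ j, a j = n * ((n + 1 : ℂ)⁻¹ * ∑ j, a j) := by
      conv_lhs => rw [Finset.sum_congr rfl (fun k _ => h1 k)]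
      rw [Finset.sum_const, Finset.card_univ, Fintype.card_fin, nsmul_eq_mul]
    have h4 : (n + 1 : ℂ) * ∑ j, a j = n * ∑ j, a j := by
      calc (n + 1 : ℂ) * ∑ j, a j = (n + 1 : ℂ) * (n * ((n + 1 : ℂ)⁻¹ * ∑ j, a j)) := by
            rw [← h3]
        _ = ((n + 1 : ℂ) * (n + 1 : ℂ)⁻¹) * (n * ∑ j, a j) := by ring
        _ = n * ∑ j, a j := by rw [mul_inv_cancel₀ n1, one_mul]
    linear_combination h4
  have h3 : ∀ k, eval z (ell k) = 0 := by
    intro k
    have h4 : a k = 0 := by rw [h1 k, h2, mul_zero]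
    exact pow_eq_zero_iff (n := d - 1) (by omega) |>.1 h4
  have h4 : ∀ k, z k = (n + 1 : ℂ)⁻¹ * ∑ j, z j := by
    intro k
    have := h3 k
    rw [eval_ell] at this
    exact sub_eq_zero.1 this
  have h5 : ∑ j, z j = 0 := by
    have h3 : ∑ j, z j = n * ((n + 1 : ℂ)⁻¹ * ∑ j, z j) := by
      conv_lhs => rw [Finset.sum_congr rfl (fun k _ => h4 k)]
      rw [Finset.sum_const, Finset.card_univ, Fintype.card_fin, nsmul_eq_mul]
    have h4 : (n + 1 : ℂ) * ∑ j, z j = n * ∑ j, z j := by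
      calc (n + 1 : ℂ) * ∑ j, z j = (n + 1 : ℂ) * (n * ((n + 1 : ℂ)⁻¹ * ∑ j, z j)) := by
            rw [← h3]
        _ = ((n + 1 : ℂ) * (n + 1 : ℂ)⁻¹) * (n * ∑ j, z j) := by ring
        _ = n * ∑ j, z j := by rw [mul_inv_cancel₀ n1, one_mul]
    linear_combination h4
  funext k
  rw [h4 k, h5, mul_zero]
  rfl

/-- the change of coordinates -/
noncomputable def psi : MvPolynomial (Fin n) ℂ →ₐ[ℂ] MvPolynomial (Fin n) ℂ :=
  aeval fun j => X j + ∑ k, X k

theorem psi_ell (j : Fin n) : psi (ell j) = X j := by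
  unfold ell psi
  rw [map_sub, map_mul, map_sum, aeval_X]
  simp only [aeval_X]
  rw [Finset.sum_add_distrib, Finset.sum_const, Finset.card_univ, Fintype.card_fin, nsmul_eq_mul,
    algHom_C, algebraMap_eq]
  have h : (C ((n + 1 : ℂ)⁻¹) : MvPolynomial (Fin n) ℂ) * ((n : MvPolynomial (Fin n) ℂ) + 1) = 1 := by
    have : ((n : MvPolynomial (Fin n) ℂ) + 1) = C (n + 1 : ℂ) := by simp
    rw [this, ← map_mul, inv_mul_cancel₀ n1, map_one]
  linear_combination (-(∑ k, X k : MvPolynomial (Fin n) ℂ)) * h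

theorem psi_jac (g : MvPolynomial (Fin n) ℂ) (hg : g ∈ jacIdeal (f0 n d)) :
    psi g ∈ Ideal.span ((fun s => monomial s (1 : ℂ)) '' Set.range
      (fun j : Fin n => Finsupp.single j (d - 1))) := by
  have hle : jacIdeal (f0 n d) ≤ Ideal.comap (psi (n := n)).toRingHom
      (Ideal.span ((fun s => monomial s (1 : ℂ)) '' Set.range
        (fun j : Fin n => Finsupp.single j (d - 1)))) := by
    unfold jacIdeal
    rw [Ideal.span_le]
    rintro _ ⟨k, rfl⟩
    change psi (pderiv k (f0 n d)) ∈ Ideal.span ((fun s => monomial s (1 : ℂ)) '' Set.range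
        (fun j : Fin n => Finsupp.single j (d - 1)))
    rw [pderiv_f0, map_sum]
    refine Ideal.sum_mem _ fun j _ => ?_
    rw [map_mul, map_pow, psi_ell, X_pow_eq_monomial]
    exact Ideal.mul_mem_left _ _ (Ideal.subset_span ⟨_, ⟨j, rfl⟩, rfl⟩)
  exact hle hg

theorem monomial_not_mem (hd : 2 ≤ d) (γ : Fin n →₀ ℕ) (hγ : γ.degree = n * (d - 2)) :
    (monomial γ (1 : ℂ) : MvPolynomial (Fin n) ℂ) ∉ jacIdeal (f0 n d) := by
  classical
  intro h
  have h1 := psi_jac _ h
  rw [mem_ideal_span_monomial_image] at h1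
  set m0 : Fin n →₀ ℕ := Finsupp.equivFunOnFinite.symm (fun _ => d - 2) with hm0
  have hm0' : ∀ i, m0 i = d - 2 := fun i => rfl
  set PN : MvPolynomial (Fin n) ℕ := ∏ j, (X j + ∑ k, X k) ^ γ j with hPN
  have hdeg0 : m0.degree = ∑ j, γ j := by
    have e1 : γ.degree = ∑ j, γ j := by
      rw [Finsupp.degree_apply]
      apply Finset.sum_subset (Finset.subset_univ _)
      intro x _ hx
      simpa using hx
    have e2 : m0.degree = ∑ j, m0 j := by
      rw [Finsupp.degree_apply]
      apply Finset.sum_subset (Finset.subset_univ _)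
      intro x _ hx
      simpa using hx
    rw [e2, ← e1, hγ]
    simp [hm0']
  have hgood : 1 ≤ coeff m0 PN := good_prod (fun j => (X j + ∑ k, X k : MvPolynomial (Fin n) ℕ)) good_lin γ
    Finset.univ m0 hdeg0
  have hmap : psi (monomial γ (1 : ℂ)) = map (Nat.castRingHom ℂ) PN := by
    rw [hPN, map_prod, monomial_eq, map_one, one_mul, Finsupp.prod_fintype _ _ (by simp), map_prod]
    apply Finset.prod_congr rfl
    intro j _
    rw [map_pow, map_pow]
    unfold psi
    rw [aeval_X, map_add, map_sum, map_X]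
    simp only [map_X]
  have hne : coeff m0 (psi (monomial γ (1 : ℂ) : MvPolynomial (Fin n) ℂ)) ≠ 0 := by
    rw [hmap, coeff_map]
    simp only [eq_natCast, ne_eq, Nat.cast_eq_zero]
    omega
  obtain ⟨_, ⟨j, rfl⟩, hj⟩ := h1 m0 (mem_support_iff.2 hne)
  have := hj j
  rw [Finsupp.single_eq_same, hm0'] at this
  omega

/-- the coefficient vector of the form -/
noncomputable def c0 (n d : ℕ) : Mon n d → ℂ := cv (f0 n d)

theorem form_c0 : form (c0 n d) = f0 n d := form_cv _ f0_hom

theorem exists_mu (hd : 2 ≤ d) (c : Mon n d → ℂ) (hc : Nondegenerate (form c)) (γ : Fin n →₀ ℕ)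
    (hγ : γ.degree = n * (d - 2)) : ∃ μ, IsMu (form c) γ μ := by
  classical
  obtain ⟨v, hv⟩ := (socle_form hd c hc).2 (cv (monomial γ (1 : ℂ)))
  rw [form_cv _ (isHomogeneous_monomial _ hγ)] at hv
  exact ⟨v, hv⟩

theorem mu_unique (hd : 2 ≤ d) (c : Mon n d → ℂ) (hc : Nondegenerate (form c)) (γ : Fin n →₀ ℕ)
    {μ ν : ℂ} (hμ : IsMu (form c) γ μ) (hν : IsMu (form c) γ ν) : μ = ν := by
  have h3 := Ideal.sub_mem _ hν hμ
  have h4 : C (μ - ν) * hess (form c) ∈ jacIdeal (form c) := by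
    convert h3 using 1
    rw [map_sub]
    ring
  by_contra hne
  have hne' : μ - ν ≠ 0 := sub_ne_zero.2 hne
  apply (socle_form hd c hc).1
  have h5 := Ideal.mul_mem_left _ (C (μ - ν)⁻¹) h4
  rw [← mul_assoc, ← map_mul, inv_mul_cancel₀ hne', map_one, one_mul] at h5
  exact h5

theorem existsUnique_mu (hd : 2 ≤ d) (c : Mon n d → ℂ) (hc : Nondegenerate (form c))
    (γ : Fin n →₀ ℕ) (hγ : γ.degree = n * (d - 2)) : ∃! μ, IsMu (form c) γ μ := by
  obtain ⟨μ, hμ⟩ := exists_mu hd c hc γ hγ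
  exact ⟨μ, hμ, fun ν hν => mu_unique hd c hc γ hν hμ⟩

theorem mu_c0_ne (hd : 2 ≤ d) (γ : Fin n →₀ ℕ) (hγ : γ.degree = n * (d - 2)) {μ : ℂ}
    (hμ : IsMu (form (c0 n d)) γ μ) : μ ≠ 0 := by
  rintro rfl
  unfold IsMu at hμ
  rw [map_zero, zero_mul, sub_zero, form_c0] at hμ
  exact monomial_not_mem hd γ hγ hμ

/-! ### Scaling -/

theorem jac_smul (f : MvPolynomial (Fin n) ℂ) {t : ℂ} (ht : t ≠ 0) :
    jacIdeal (C t * f) = jacIdeal f := by
  unfold jacIdeal
  apply le_antisymm
  · rw [Ideal.span_le]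
    rintro _ ⟨k, rfl⟩
    change pderiv k (C t * f) ∈ _
    rw [pderiv_C_mul]
    exact Ideal.mul_mem_left _ _ (Ideal.subset_span ⟨k, rfl⟩)
  · rw [Ideal.span_le]
    rintro _ ⟨k, rfl⟩
    change pderiv k f ∈ _
    have : pderiv k f = C t⁻¹ * pderiv k (C t * f) := by
      rw [pderiv_C_mul, ← mul_assoc, ← map_mul, inv_mul_cancel₀ ht, map_one, one_mul]
    rw [this]
    exact Ideal.mul_mem_left _ _ (Ideal.subset_span ⟨k, rfl⟩)

theorem hess_smul (f : MvPolynomial (Fin n) ℂ) (t : ℂ) :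
    hess (C t * f) = C (t ^ n) * hess f := by
  unfold hess
  have : (Matrix.of fun i j => pderiv j (pderiv i (C t * f)) : Matrix (Fin n) (Fin n)
      (MvPolynomial (Fin n) ℂ)) = (C t : MvPolynomial (Fin n) ℂ) •
        Matrix.of fun i j => pderiv j (pderiv i f) := by
    ext1 i j
    simp only [Matrix.of_apply, Matrix.smul_apply, smul_eq_mul, pderiv_C_mul]
  rw [this, Matrix.det_smul, Fintype.card_fin, map_pow]

theorem nondeg_smul {f : MvPolynomial (Fin n) ℂ} (hf : Nondegenerate f) {t : ℂ} (ht : t ≠ 0) :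
    Nondegenerate (C t * f) := by
  intro z hz
  apply hf z
  intro i
  have := hz i
  rw [pderiv_C_mul, map_mul, eval_C] at this
  exact (mul_eq_zero.1 this).resolve_left ht

theorem mu_smul {f : MvPolynomial (Fin n) ℂ} {γ : Fin n →₀ ℕ} {μ : ℂ} (h : IsMu f γ μ) {t : ℂ}
    (ht : t ≠ 0) : IsMu (C t * f) γ ((t ^ n)⁻¹ * μ) := by
  unfold IsMu at *
  rw [jac_smul f ht, hess_smul]
  have e : C ((t ^ n)⁻¹ * μ) * (C (t ^ n) * hess f) = C μ * hess f := by
    rw [← mul_assoc, ← map_mul]
    congr 2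
    field_simp
  rw [e]
  exact h

/-- no polynomial function agrees with `μ_γ` -/
theorem not_poly (hn : 0 < n) (hd : 2 ≤ d) (γ : Fin n →₀ ℕ) (hγ : γ.degree = n * (d - 2))
    (Q : MvPolynomial (Mon n d) ℂ)
    (hQ : ∀ c : Mon n d → ℂ, Nondegenerate (form c) → ∀ μ, IsMu (form c) γ μ → eval c Q = μ) :
    False := by
  have hc0 : Nondegenerate (form (c0 n d)) := by
    rw [form_c0]; exact f0_nondeg hd
  obtain ⟨μ, hμ⟩ := exists_mu hd _ hc0 γ hγ
  have hμ0 := mu_c0_ne hd γ hγ hμ
  let R : Polynomial ℂ := Polynomial.X ^ n *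
    aeval (fun m : Mon n d => Polynomial.C (c0 n d m) * Polynomial.X) Q - Polynomial.C μ
  have hev : ∀ t : ℂ, t ≠ 0 → R.eval t = 0 := by
    intro t ht
    have h1 : form (t • c0 n d) = C t * form (c0 n d) := form_smul t _
    have h2 := hQ (t • c0 n d) (by rw [h1]; exact nondeg_smul hc0 ht) ((t ^ n)⁻¹ * μ)
      (by rw [h1]; exact mu_smul hμ ht)
    have h3 : (aeval (fun m : Mon n d => Polynomial.C (c0 n d m) * Polynomial.X) Q :
        Polynomial ℂ).eval t = eval (t • c0 n d) Q := by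
      have h4 : (Polynomial.evalRingHom t).comp (aeval (fun m : Mon n d =>
          (Polynomial.C (c0 n d m) * Polynomial.X : Polynomial ℂ)) :
          MvPolynomial (Mon n d) ℂ →ₐ[ℂ] Polynomial ℂ).toRingHom = eval (t • c0 n d) := by
        apply MvPolynomial.ringHom_ext
        · intro r; simp
        · intro α
          simp only [RingHom.comp_apply, AlgHom.toRingHom_eq_coe, RingHom.coe_coe, aeval_X,
            Polynomial.coe_evalRingHom, Polynomial.eval_mul, Polynomial.eval_C, Polynomial.eval_X,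
            eval_X, Pi.smul_apply, smul_eq_mul]
          ring
      exact congrArg (fun g : _ →+* _ => g Q) h4
    simp only [R, Polynomial.eval_sub, Polynomial.eval_mul, Polynomial.eval_pow, Polynomial.eval_X,
      Polynomial.eval_C]
    rw [h3, h2, ← mul_assoc, mul_inv_cancel₀ (pow_ne_zero n ht), one_mul, sub_self]
  have hR : R = 0 := by
    apply Polynomial.eq_zero_of_infinite_isRoot
    refine Set.Infinite.mono (s := {0}ᶜ) ?_ (Set.finite_singleton (0 : ℂ)).infinite_compl
    intro t ht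
    exact hev t ht
  have h0 : R.eval 0 = 0 := by rw [hR, Polynomial.eval_zero]
  simp only [R, Polynomial.eval_sub, Polynomial.eval_mul, Polynomial.eval_pow, Polynomial.eval_X,
      Polynomial.eval_C, zero_pow hn.ne', zero_mul, zero_sub, neg_eq_zero] at h0
  exact hμ0 h0

theorem extends_one' (hn : 0 < n) (hd : 2 ≤ d) (Δ : MvPolynomial (Mon n d) ℂ)
    (hΔ : VanishesOnDegenerate Δ) (γ : Fin n →₀ ℕ) (hγ : γ.degree = n * (d - 2)) :
    Extends Δ γ 1 := by
  obtain ⟨q, hq⟩ := key hn hd Δ hΔ (monomial γ 1) (isHomogeneous_monomial _ hγ)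
  refine ⟨q, ?_⟩
  intro c hc v hv
  have h1 := map_mem_jacIdeal c _ hq
  rw [map_sub, map_mul, map_mul, map_C, map_C, map_hess, map_gen, map_monomial, map_one] at h1
  have h2 := Ideal.mul_mem_left _ (C (eval c Δ)) hv
  have h3 := Ideal.sub_mem _ h2 h1
  have h4 : C (eval c q - eval c Δ * v) * hess (form c) ∈ jacIdeal (form c) := by
    convert h3 using 1
    rw [map_sub, map_mul]
    ring
  rw [zpow_one]
  by_contra hne
  have hne' : eval c q - eval c Δ * v ≠ 0 := sub_ne_zero.2 hne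
  apply (socle_form hd c hc).1
  have h5 := Ideal.mul_mem_left _ (C (eval c q - eval c Δ * v)⁻¹) h4
  rw [← mul_assoc, ← map_mul, inv_mul_cancel₀ hne', map_one, one_mul] at h5
  exact h5

/-- the least integer exponent is one, for every coefficient -/
theorem isLeast_one (hn : 0 < n) (hd : 2 ≤ d) (Δ : MvPolynomial (Mon n d) ℂ)
    (hΔ : IsDiscriminant Δ) (γ : Fin n →₀ ℕ) (hγ : γ.degree = n * (d - 2)) :
    IsLeast {p : ℤ | Extends Δ γ p} 1 := by
  refine ⟨extends_one' hn hd Δ (fun c hc => (hΔ.2 c).2 hc) γ hγ, ?_⟩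
  rintro p ⟨P, hP⟩
  by_contra hp
  push Not at hp
  obtain ⟨k, hk⟩ : ∃ k : ℕ, p = -(k : ℤ) := ⟨(-p).toNat, by omega⟩
  refine not_poly hn hd γ hγ (Δ ^ k * P) ?_
  intro c hc μ hμ
  have h1 : eval c Δ ≠ 0 := fun h => (hΔ.2 c).1 h hc
  rw [map_mul, map_pow, hP c hc μ hμ, hk, zpow_neg, zpow_natCast, ← mul_assoc,
    mul_inv_cancel₀ (pow_ne_zero k h1), one_mul]

end Pool.Agent.Q122.Assoc
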